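import Pool.Agent.H16.COD.Mat

/-!
# The cocycle of the discriminant of a semi-invariant symmetric matrix
-/

set_option autoImplicit false
set_option linter.unusedSectionVars false

namespace Pool.Agent.H16.COD

open Matrix

universe u

section step

variable {K : Type*} [Field K] {σ : Type*} [Fintype σ] [DecidableEq σ]

/-- one group element: `G` induces `W` on the nondegenerate quotient -/
theorem step {r : ℕ} (H G : Matrix σ σ K) (J : Fin r → σ) (R : Matrix (Fin r) σ K)
    (hHR : H = Rᵀ * H.submatrix J J * R) (hRJ : R.submatrix id J = 1)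
    (hdet : (H.submatrix J J).det ≠ 0) (f : K →+* K) (d : K) (hd : d ≠ 0)
    (hG : Gᵀ * H * G = d • H.map f) :
    R * G = (R * G).submatrix id J * R.map f ∧
      ((R * G).submatrix id J).det ^ 2 * (H.submatrix J J).det =
        d ^ r * f (H.submatrix J J).det := by
  obtain ⟨H₀, hH₀⟩ : ∃ H₀ : Matrix (Fin r) (Fin r) K, H₀ = H.submatrix J J := ⟨_, rfl⟩
  rw [← hH₀] at hHR hdet ⊢
  obtain ⟨W, hW⟩ : ∃ W : Matrix (Fin r) (Fin r) K, W = (R * G).submatrix id J := ⟨_, rfl⟩
  rw [← hW]
  have hRJf : (R.map f).submatrix id J = 1 := by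
    have h1 : (R.map f).submatrix id J = (R.submatrix id J).map f := rfl
    rw [h1, hRJ, Matrix.map_one _ (map_zero f) (map_one f)]
  have hE : (R * G)ᵀ * H₀ * (R * G) = d • ((R.map f)ᵀ * H₀.map f * R.map f) := by
    have h1 : H.map f = (R.map f)ᵀ * H₀.map f * R.map f := by
      conv_lhs => rw [hHR]
      rw [Matrix.map_mul, Matrix.map_mul, Matrix.transpose_map]
    rw [← h1, ← hG]
    conv_rhs => rw [hHR]
    rw [Matrix.transpose_mul]
    simp only [Matrix.mul_assoc]
  have hE1 : Wᵀ * H₀ * (R * G) = d • (H₀.map f * R.map f) := by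
    have h1 := congrArg (fun M : Matrix σ σ K => M.submatrix J id) hE
    have h2 : ((R * G)ᵀ * H₀ * (R * G)).submatrix J id = Wᵀ * H₀ * (R * G) := by
      rw [hW]; rfl
    have h3 : (d • ((R.map f)ᵀ * H₀.map f * R.map f)).submatrix J id =
        d • (((R.map f).submatrix id J)ᵀ * H₀.map f * R.map f) := rfl
    change ((R * G)ᵀ * H₀ * (R * G)).submatrix J id =
      (d • ((R.map f)ᵀ * H₀.map f * R.map f)).submatrix J id at h1
    rw [h2, h3, hRJf, Matrix.transpose_one, Matrix.one_mul] at h1
    exact h1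
  have hE2 : Wᵀ * H₀ * W = d • H₀.map f := by
    have h1 := congrArg (fun M : Matrix (Fin r) σ K => M.submatrix id J) hE1
    have h2 : (Wᵀ * H₀ * (R * G)).submatrix id J = Wᵀ * H₀ * W := by
      rw [hW]; rfl
    have h3 : (d • (H₀.map f * R.map f)).submatrix id J =
        d • (H₀.map f * (R.map f).submatrix id J) := rfl
    change (Wᵀ * H₀ * (R * G)).submatrix id J = (d • (H₀.map f * R.map f)).submatrix id J at h1
    rw [h2, h3, hRJf, Matrix.mul_one] at h1
    exact h1
  have hD : W.det ^ 2 * H₀.det = d ^ r * f H₀.det := by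
    have h1 := congrArg Matrix.det hE2
    rw [Matrix.det_mul, Matrix.det_mul, Matrix.det_transpose, Matrix.det_smul,
      Fintype.card_fin] at h1
    have h2 : (H₀.map f).det = f H₀.det := (RingHom.map_det f H₀).symm
    rw [h2] at h1
    rw [← h1]
    ring
  refine ⟨?_, hD⟩
  have hW0 : W.det ≠ 0 := by
    intro h0
    rw [h0, zero_pow two_ne_zero, zero_mul] at hD
    exact mul_ne_zero (pow_ne_zero r hd) ((map_ne_zero f).mpr hdet) hD.symm
  have hu : IsUnit (Wᵀ * H₀).det := by
    rw [Matrix.det_mul, Matrix.det_transpose]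
    exact isUnit_iff_ne_zero.mpr (mul_ne_zero hW0 hdet)
  have h5 : (Wᵀ * H₀) * (R * G) = (Wᵀ * H₀) * (W * R.map f) := by
    rw [hE1, ← Matrix.mul_assoc, hE2, Matrix.smul_mul]
  have h6 := congrArg (fun M => (Wᵀ * H₀)⁻¹ * M) h5
  change (Wᵀ * H₀)⁻¹ * ((Wᵀ * H₀) * (R * G)) = (Wᵀ * H₀)⁻¹ * ((Wᵀ * H₀) * (W * R.map f)) at h6
  rw [Matrix.nonsing_inv_mul_cancel_left _ _ hu, Matrix.nonsing_inv_mul_cancel_left _ _ hu] at h6
  exact h6

end step

section core

variable {O : Type u} [CommRing O] [IsDomain O] [UniqueFactorizationMonoid O] [IsLocalRing O]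
  {Γ : Type*} [Group Γ] {σ : Type*} [Fintype σ] [DecidableEq σ]

/-- a unit quotient of squarefree elements -/
theorem unit_of_sq_mul {v : FractionRing O} {a b c : O} (ha : Squarefree a) (hb : Squarefree b)
    (hc : IsUnit c)
    (h : v ^ 2 * algebraMap O (FractionRing O) a = algebraMap O (FractionRing O) (c * b)) :
    ∃ w : O, IsUnit w ∧ algebraMap O (FractionRing O) w = v := by
  have hinj := IsFractionRing.injective O (FractionRing O)
  obtain ⟨x, y, hxy, rfl⟩ := IsFractionRing.exists_reduced_fraction (A := O) v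
  obtain ⟨y, hy⟩ := y
  have hy0 : y ≠ 0 := nonZeroDivisors.ne_zero hy
  have hyK : algebraMap O (FractionRing O) y ≠ 0 := fun h0 => hy0 (hinj (by rw [h0, map_zero]))
  rw [IsFractionRing.mk'_eq_div] at h ⊢
  change (algebraMap O (FractionRing O) x / algebraMap O (FractionRing O) y) ^ 2 *
    algebraMap O (FractionRing O) a = algebraMap O (FractionRing O) (c * b) at h
  change ∃ w : O, IsUnit w ∧ algebraMap O (FractionRing O) w =
    algebraMap O (FractionRing O) x / algebraMap O (FractionRing O) y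
  change IsRelPrime x y at hxy
  have h1 : x ^ 2 * a = y ^ 2 * (c * b) := by
    apply hinj
    rw [map_mul, map_pow, map_mul _ (y ^ 2), map_pow, ← h]
    field_simp
  have hrel : IsRelPrime (x ^ 2) (y ^ 2) := hxy.pow
  have h2 : y ^ 2 ∣ a := by
    have h3 : y ^ 2 ∣ x ^ 2 * a := ⟨c * b, h1⟩
    exact hrel.symm.dvd_of_dvd_mul_left h3
  have hyu : IsUnit y := ha y (by rw [← sq]; exact h2)
  have h4 : x ^ 2 ∣ c * b := by
    have h5 : x ^ 2 ∣ y ^ 2 * (c * b) := ⟨a, h1.symm⟩
    exact hrel.dvd_of_dvd_mul_left h5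
  have h6 : x ^ 2 ∣ b := by
    rw [mul_comm] at h4
    exact (hc.dvd_mul_right).mp h4
  have hxu : IsUnit x := hb x (by rw [← sq]; exact h6)
  obtain ⟨z, hz⟩ := hyu.exists_right_inv
  refine ⟨x * z, hxu.mul (IsUnit.of_mul_eq_one y (by rw [mul_comm]; exact hz)), ?_⟩
  rw [map_mul, eq_div_iff hyK, mul_assoc, ← map_mul _ z y, mul_comm z y, hz, map_one, mul_one]

theorem core (ρ : Γ → O →+* O) (hρ1 : ∀ a, ρ 1 a = a) (hρ : ∀ g h a, ρ (g * h) a = ρ g (ρ h a))
    (htriv : ∀ g a, ρ g a - a ∈ IsLocalRing.maximalIdeal O)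
    (H : Matrix σ σ O) (hH : Hᵀ = H) (G : Γ → Matrix σ σ O) (hG1 : G 1 = 1)
    (hG : ∀ g h, G (g * h) = G g * (G h).map (ρ g))
    (δ : Γ → O) (hδ1 : δ 1 = 1) (hδ : ∀ g h, δ (g * h) = δ g * ρ g (δ h))
    (hGH : ∀ g, (G g)ᵀ * H * G g = δ g • H.map (ρ g)) (r : ℕ)
    (hr : (H.map (algebraMap O (FractionRing O))).rank = r) :
    ∃ m : O, Squarefree m ∧
      (∀ p, Prime p → p ∣ m → ∀ (L : Type u) [Field L] (f : O →+* L),
        RingHom.ker f = Ideal.span {p} → (H.map f).rank < r) ∧
      ∃ e : Γ → Oˣ, (∀ g, ρ g m = e g * m) ∧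
        ∃ ψ : Γ →* IsLocalRing.ResidueField O, ∀ g,
          IsLocalRing.residue O (δ g) ^ r * IsLocalRing.residue O (e g : O) = ψ g ^ 2 := by
  obtain ⟨j, hj⟩ : ∃ j : O →+* FractionRing O, j = algebraMap O (FractionRing O) := ⟨_, rfl⟩
  have hinj : Function.Injective j := by rw [hj]; exact IsFractionRing.injective O _
  rw [← hj] at hr
  have hρinv : ∀ g a, ρ g⁻¹ (ρ g a) = a := fun g a => by
    rw [← hρ, inv_mul_cancel, hρ1]
  have hρinv' : ∀ g a, ρ g (ρ g⁻¹ a) = a := fun g a => by
    rw [← hρ, mul_inv_cancel, hρ1]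
  have hρinj : ∀ g, Function.Injective (ρ g) := fun g => Function.LeftInverse.injective (hρinv g)
  -- extension to the field of fractions
  have hex : ∀ g, ∃ f : FractionRing O →+* FractionRing O, ∀ a, f (j a) = j (ρ g a) := by
    intro g
    have hi : Function.Injective (j.comp (ρ g)) := hinj.comp (hρinj g)
    refine ⟨IsFractionRing.lift hi, fun a => ?_⟩
    have h9 := IsFractionRing.lift_algebraMap (K := FractionRing O) hi a
    rw [← hj] at h9
    exact h9
  choose f hf using hex
  have hff : ∀ g h x, f (g * h) x = f g (f h x) := by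
    intro g h x
    obtain ⟨a, b, _, rfl⟩ := IsFractionRing.div_surjective (A := O) x
    rw [← hj]
    simp only [map_div₀, hf, hρ]
  -- the factorization
  have hHk : (H.map j)ᵀ = H.map j := by rw [← Matrix.transpose_map, hH]
  obtain ⟨J, R, hHR, hRJ, hdet⟩ := exists_factor (H.map j) hHk r hr
  obtain ⟨m₀, hm₀⟩ : ∃ m₀ : O, m₀ = (H.submatrix J J).det := ⟨_, rfl⟩
  have hjm : j m₀ = ((H.map j).submatrix J J).det := by
    rw [hm₀]; exact RingHom.map_det j (H.submatrix J J)
  have hm0 : m₀ ≠ 0 := by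
    rintro rfl
    exact hdet (by rw [← hjm, map_zero])
  -- the units `δ`
  have hδu : ∀ g, IsUnit (δ g) := by
    intro g
    refine IsUnit.of_mul_eq_one (ρ g (δ g⁻¹)) ?_
    rw [← hδ, mul_inv_cancel, hδ1]
  have hδ0 : ∀ g, j (δ g) ≠ 0 := fun g h0 =>
    (hδu g).ne_zero (hinj (by rw [h0, map_zero]))
  have hstep : ∀ g, R * (G g).map j = (R * (G g).map j).submatrix id J * R.map (f g) ∧
      ((R * (G g).map j).submatrix id J).det ^ 2 * j m₀ = j (δ g) ^ r * f g (j m₀) := by
    intro g
    have h1 : ((G g).map j)ᵀ * H.map j * (G g).map j = j (δ g) • (H.map j).map (f g) := by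
      have h2 := congrArg (fun M : Matrix σ σ O => M.map j) (hGH g)
      change ((G g)ᵀ * H * G g).map j = (δ g • H.map (ρ g)).map j at h2
      rw [Matrix.map_mul, Matrix.map_mul, Matrix.transpose_map] at h2
      rw [h2]
      ext a b
      change j (δ g * ρ g (H a b)) = j (δ g) * f g (j (H a b))
      rw [map_mul, hf]
    have h3 := step (H.map j) ((G g).map j) J R hHR hRJ hdet (f g) (j (δ g)) (hδ0 g) h1
    rw [← hjm] at h3
    exact h3
  obtain ⟨W, hW⟩ : ∃ W : Γ → Matrix (Fin r) (Fin r) (FractionRing O),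
      ∀ g, W g = (R * (G g).map j).submatrix id J := ⟨_, fun _ => rfl⟩
  have hW1 : W 1 = 1 := by
    rw [hW, hG1, Matrix.map_one _ (map_zero j) (map_one j), Matrix.mul_one, hRJ]
  have hWm : ∀ g h, W (g * h) = W g * (W h).map (f g) := by
    intro g h
    have h1 : (G (g * h)).map j = (G g).map j * ((G h).map j).map (f g) := by
      rw [hG, Matrix.map_mul]
      congr 1
      ext a b
      change j (ρ g (G h a b)) = f g (j (G h a b))
      rw [hf]
    have h2 : R * (G (g * h)).map j =
        W g * ((W h).map (f g) * (R.map (f h)).map (f g)) := by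
      rw [h1, ← Matrix.mul_assoc, (hstep g).1, ← hW g, Matrix.mul_assoc, ← Matrix.map_mul,
        (hstep h).1, ← hW h, Matrix.map_mul]
    rw [hW (g * h), h2]
    change W g * ((W h).map (f g) * ((R.map (f h)).map (f g)).submatrix id J) = _
    have h3 : ((R.map (f h)).map (f g)).submatrix id J = 1 := by
      have h4 : ((R.map (f h)).map (f g)).submatrix id J =
        ((R.submatrix id J).map (f h)).map (f g) := rfl
      rw [h4, hRJ, Matrix.map_one _ (map_zero _) (map_one _),
        Matrix.map_one _ (map_zero _) (map_one _)]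
    rw [h3, Matrix.mul_one]
  -- the squarefree part
  obtain ⟨m, s, hm, hs0, hms⟩ := exists_squarefree_mul_sq m₀ hm0
  have hmz : m ≠ 0 := by
    rintro rfl
    exact hm0 (by rw [hms, zero_mul])
  have hρm : ∀ g, Squarefree (ρ g m) := by
    intro g x hx
    have h1 : ρ g⁻¹ x * ρ g⁻¹ x ∣ m := by
      obtain ⟨y, hy⟩ := hx
      refine ⟨ρ g⁻¹ y, ?_⟩
      rw [← hρinv g m, hy, map_mul, map_mul]
    have h2 := (hm _ h1).map (ρ g)
    rwa [hρinv'] at h2
  have hρz : ∀ g a, a ≠ 0 → ρ g a ≠ 0 := fun g a ha h0 => ha (hρinj g (by rw [h0, map_zero]))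
  -- the cocycle `v`
  have hv : ∀ g, ∃ w : O, IsUnit w ∧ j w = (W g).det * j s / j (ρ g s) ∧
      w ^ 2 * m = δ g ^ r * ρ g m := by
    intro g
    have hsg : j (ρ g s) ≠ 0 := fun h0 => hρz g s hs0 (hinj (by rw [h0, map_zero]))
    have h1 := (hstep g).2
    rw [← hW g, hf, hms] at h1
    have h2 : ((W g).det * j s / j (ρ g s)) ^ 2 * j m = j (δ g ^ r * ρ g m) := by
      rw [div_pow, div_mul_eq_mul_div, div_eq_iff (pow_ne_zero 2 hsg)]
      rw [map_mul, map_pow, map_mul, map_pow, map_mul, map_pow] at h1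
      rw [map_mul, map_pow]
      linear_combination h1
    have h3 : ((W g).det * j s / j (ρ g s)) ^ 2 * algebraMap O (FractionRing O) m =
        algebraMap O (FractionRing O) (δ g ^ r * ρ g m) := by rw [← hj]; exact h2
    obtain ⟨w, hw, hwv⟩ := unit_of_sq_mul hm (hρm g) ((hδu g).pow r) h3
    rw [← hj] at hwv
    refine ⟨w, hw, hwv, hinj ?_⟩
    rw [map_mul, map_pow, hwv]
    exact h2
  choose v hvu hvj hvm using hv
  have hv1 : v 1 = 1 := by
    apply hinj
    have hs1 : j s ≠ 0 := fun h0 => hs0 (hinj (by rw [h0, map_zero]))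
    rw [hvj, hW1, Matrix.det_one, one_mul, hρ1, div_self hs1, map_one]
  have hvmul : ∀ g h, v (g * h) = v g * ρ g (v h) := by
    intro g h
    apply hinj
    have hs1 : j (ρ g s) ≠ 0 := fun h0 => hρz g s hs0 (hinj (by rw [h0, map_zero]))
    have h1 : (W (g * h)).det = (W g).det * f g (W h).det := by
      rw [hWm, Matrix.det_mul]
      congr 1
      exact (RingHom.map_det (f g) (W h)).symm
    rw [map_mul, ← hf, hvj, hvj, hvj, h1, map_div₀, map_mul, hf, hf, hρ]
    field_simp
  have hres : ∀ g a, IsLocalRing.residue O (ρ g a) = IsLocalRing.residue O a := by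
    intro g a
    rw [← sub_eq_zero, ← map_sub, IsLocalRing.residue_eq_zero_iff]
    exact htriv g a
  have he : ∀ g, ∃ e : Oˣ, ρ g m = e * m ∧ v g ^ 2 = δ g ^ r * e := by
    intro g
    obtain ⟨dr, hdr⟩ := ((hδu g).pow r)
    obtain ⟨w, hw⟩ := hvu g
    refine ⟨dr⁻¹ * w ^ 2, ?_, ?_⟩
    · have h1 := hvm g
      rw [← hdr, ← hw] at h1
      rw [Units.val_mul, Units.val_pow_eq_pow_val, mul_assoc, h1, ← mul_assoc, Units.inv_mul,
        one_mul]
    · rw [← hdr, ← hw, Units.val_mul, Units.val_pow_eq_pow_val, ← mul_assoc, Units.mul_inv,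
        one_mul]
  choose e he1 he2 using he
  refine ⟨m, hm, ?_, e, he1, ?_⟩
  · intro p hp hpm L _ fL hker
    have hsymL : (H.map fL)ᵀ = H.map fL := by rw [← Matrix.transpose_map, hH]
    have hle : (H.map fL).rank ≤ r := by
      obtain ⟨J', R', _, _, h3⟩ := exists_factor (H.map fL) hsymL (H.map fL).rank rfl
      rw [← hr]
      apply le_rank_of_det (H.map j) J'
      have h5 : ((H.map j).submatrix J' J').det = j (H.submatrix J' J').det :=
        (RingHom.map_det j (H.submatrix J' J')).symm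
      have h6 : ((H.map fL).submatrix J' J').det = fL (H.submatrix J' J').det :=
        (RingHom.map_det fL (H.submatrix J' J')).symm
      rw [h5]
      rw [h6] at h3
      intro h0
      apply h3
      rw [hinj (h0.trans (map_zero j).symm), map_zero]
    rcases lt_or_eq_of_le hle with hlt | heq
    · exact hlt
    · exfalso
      obtain ⟨J', R', _, _, h3⟩ := exists_factor (H.map fL) hsymL r heq
      refine no_square hm hs0 hms hp hpm ⟨(H.submatrix J' J').det, (H.submatrix J' J).det, ?_, ?_⟩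
      · intro hdvd
        apply h3
        have h6 : ((H.map fL).submatrix J' J').det = fL (H.submatrix J' J').det :=
          (RingHom.map_det fL (H.submatrix J' J')).symm
        rw [h6, ← RingHom.mem_ker, hker]
        exact Ideal.mem_span_singleton.mpr hdvd
      · apply hinj
        rw [map_mul, map_pow, hjm]
        have h7 : j (H.submatrix J' J').det = ((H.map j).submatrix J' J').det :=
          RingHom.map_det j (H.submatrix J' J')
        have h8 : j (H.submatrix J' J).det = ((H.map j).submatrix J' J).det :=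
          RingHom.map_det j (H.submatrix J' J)
        have h9 : (H.map j).submatrix J' J' =
            (R.submatrix id J')ᵀ * (H.map j).submatrix J J * R.submatrix id J' := by
          conv_lhs => rw [hHR]
          rfl
        have h10 : (H.map j).submatrix J' J =
            (R.submatrix id J')ᵀ * (H.map j).submatrix J J * R.submatrix id J := by
          conv_lhs => rw [hHR]
          rfl
        rw [h7, h8, h9, h10, hRJ, Matrix.mul_one, Matrix.det_mul, Matrix.det_mul,
          Matrix.det_transpose]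
        ring
  · refine ⟨{ toFun := fun g => IsLocalRing.residue O (v g), map_one' := ?_, map_mul' := ?_ }, ?_⟩
    · rw [hv1, map_one]
    · intro g h
      rw [hvmul, map_mul, hres]
    · intro g
      change _ = IsLocalRing.residue O (v g) ^ 2
      rw [← map_pow (IsLocalRing.residue O) (v g), he2, map_mul, map_pow]

end core

end Pool.Agent.H16.COD
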