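import Pool.Agent.H16.COD.Form
import Pool.Agent.H17.LF.Two

/-!
# The tangent dimension of a fibre and the rank of the Hessian matrix
-/

set_option autoImplicit false
set_option linter.unusedSectionVars false

namespace Pool.Agent.H16.COD

open MvPolynomial Matrix

/-- the matrices of the multiplications by the variables -/
noncomputable def XM {O : Type*} [CommRing O] {P : Ideal (MvPolynomial (Fin 3) O)} {ι : Type*}
    [Fintype ι] [DecidableEq ι] (b : Module.Basis ι O (MvPolynomial (Fin 3) O ⧸ P))
    (i : Fin 3) : Matrix ι ι O :=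
  Matrix.of fun k j => b.repr (Ideal.Quotient.mk P (X i) * b j) k

theorem XM_spec {O : Type*} [CommRing O] {P : Ideal (MvPolynomial (Fin 3) O)} {ι : Type*}
    [Fintype ι] [DecidableEq ι] (b : Module.Basis ι O (MvPolynomial (Fin 3) O ⧸ P))
    (i : Fin 3) (j : ι) : Ideal.Quotient.mk P (X i) * b j = ∑ k, XM b i k j • b k :=
  (b.sum_repr _).symm

section rank

variable {k : Type*} [Field k] (I : Ideal (MvPolynomial (Fin 3) k))
  [Module.Finite k (MvPolynomial (Fin 3) k ⧸ I)] {ι : Type*} [Fintype ι] [DecidableEq ι]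
  (b : Module.Basis ι k (MvPolynomial (Fin 3) k ⧸ I))

/-- triples of endomorphisms from vectors -/
noncomputable def Th : (Fin 3 × ι × ι → k) ≃ₗ[k]
    (Fin 3 → Module.End k (MvPolynomial (Fin 3) k ⧸ I)) where
  toFun x := fun i => Matrix.toLin b b (un x i)
  map_add' x y := by
    funext i
    rw [un_add, Pi.add_apply, map_add]
    rfl
  map_smul' a x := by
    funext i
    rw [un_smul, Pi.smul_apply, map_smul]
    rfl
  invFun u := vec fun i => LinearMap.toMatrix b b (u i)
  left_inv x := by
    have h : (fun i => LinearMap.toMatrix b b (Matrix.toLin b b (un x i))) = un x := by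
      funext i
      rw [LinearMap.toMatrix_toLin]
    change vec (fun i => LinearMap.toMatrix b b (Matrix.toLin b b (un x i))) = x
    rw [h, vec_un]
  right_inv u := by
    funext i
    change Matrix.toLin b b (un (vec fun i => LinearMap.toMatrix b b (u i)) i) = u i
    rw [un_vec, Matrix.toLin_toMatrix]

theorem toMatrix_op (i : Fin 3) :
    LinearMap.toMatrix b b (Pool.Agent.H13.Par.op I i) = XM b i := by
  ext k j
  rw [LinearMap.toMatrix_apply]
  rfl

theorem tri_eq (x y : Fin 3 × ι × ι → k) (a c e : Fin 3) :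
    Pool.Agent.H13.Par.tri (Pool.Agent.H13.Par.op I) (Th I b x) (Th I b y) a c e =
      tr3 (XM b a) (un x c) (un y e) := by
  unfold Pool.Agent.H13.Par.tri tr3
  rw [LinearMap.trace_eq_matrix_trace k b, LinearMap.toMatrix_mul, map_sub, LinearMap.toMatrix_mul,
    LinearMap.toMatrix_mul, toMatrix_op]
  change Matrix.trace ((XM b a * LinearMap.toMatrix b b (Matrix.toLin b b (un x c)) -
    LinearMap.toMatrix b b (Matrix.toLin b b (un x c)) * XM b a) *
      LinearMap.toMatrix b b (Matrix.toLin b b (un y e))) = _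
  rw [LinearMap.toMatrix_toLin, LinearMap.toMatrix_toLin]

theorem tp_eq (x y : Fin 3 × ι × ι → k) :
    Pool.Agent.H13.Par.tp (Pool.Agent.H13.Par.curl (Pool.Agent.H13.Par.op I) (Th I b x))
      (Th I b y) = form (XM b) (un x) (un y) := by
  rw [Pool.Agent.H13.Par.tp_curl]
  simp only [tri_eq]
  unfold form
  ring

theorem rank_hess : (hess (XM b)).rank = Module.finrank k
    (LinearMap.range (Pool.Agent.H13.Par.curl (Pool.Agent.H13.Par.op I))) := by
  have hker : LinearMap.ker (hess (XM b)).mulVecLin =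
      LinearMap.ker ((Pool.Agent.H13.Par.curl (Pool.Agent.H13.Par.op I)) ∘ₗ
        (Th I b).toLinearMap) := by
    ext y
    rw [LinearMap.mem_ker, LinearMap.mem_ker, Matrix.mulVecLin_apply]
    constructor
    · intro h
      apply Pool.Agent.H13.Par.tp_nondeg
      intro v
      obtain ⟨x, rfl⟩ := (Th I b).surjective v
      change Pool.Agent.H13.Par.tp (Pool.Agent.H13.Par.curl (Pool.Agent.H13.Par.op I) (Th I b y))
        (Th I b x) = 0
      rw [tp_eq, form_symm, form_eq, h, dotProduct_zero]
    · intro h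
      have h1 : ∀ x, x ⬝ᵥ (hess (XM b) *ᵥ y) = 0 := by
        intro x
        rw [← form_eq, form_symm, ← tp_eq]
        change Pool.Agent.H13.Par.curl (Pool.Agent.H13.Par.op I) (Th I b y) = 0 at h
        rw [h, map_zero, LinearMap.zero_apply]
      funext p
      have h2 := h1 (Pi.single p 1)
      rw [single_dotProduct, one_mul] at h2
      exact h2
  have hrange : LinearMap.range ((Pool.Agent.H13.Par.curl (Pool.Agent.H13.Par.op I)) ∘ₗ
      (Th I b).toLinearMap) =
      LinearMap.range (Pool.Agent.H13.Par.curl (Pool.Agent.H13.Par.op I)) :=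
    LinearMap.range_comp_of_range_eq_top _ (LinearEquiv.range _)
  have h1 := LinearMap.finrank_range_add_finrank_ker (hess (XM b)).mulVecLin
  have h2 := LinearMap.finrank_range_add_finrank_ker
    ((Pool.Agent.H13.Par.curl (Pool.Agent.H13.Par.op I)) ∘ₗ (Th I b).toLinearMap)
  rw [hker] at h1
  rw [hrange] at h2
  change Module.finrank k (LinearMap.range (hess (XM b)).mulVecLin) = _
  omega

end rank

section fibre

variable {O : Type*} [CommRing O] (P : Ideal (MvPolynomial (Fin 3) O)) {ι : Type*}
  [Fintype ι] [DecidableEq ι] (b : Module.Basis ι O (MvPolynomial (Fin 3) O ⧸ P))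
  {L : Type*} [Field L] (f : O →+* L)

theorem fibre_basis : ∃ (_ : Module.Finite L
      (MvPolynomial (Fin 3) L ⧸ P.map (MvPolynomial.map f)))
    (bL : Module.Basis ι L (MvPolynomial (Fin 3) L ⧸ P.map (MvPolynomial.map f))),
    (∀ i, XM bL i = (XM b i).map f) ∧
    Module.finrank L (MvPolynomial (Fin 3) L ⧸ P.map (MvPolynomial.map f)) = Fintype.card ι := by
  let _ : Algebra O L := f.toAlgebra
  obtain ⟨hfin, hcard⟩ := Pool.Agent.H17.LF.finrank_extend (K := L) P b
  change Module.Finite L (MvPolynomial (Fin 3) L ⧸ P.map (MvPolynomial.map f)) at hfin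
  change Module.finrank L (MvPolynomial (Fin 3) L ⧸ P.map (MvPolynomial.map f)) =
    Fintype.card ι at hcard
  choose p hp using fun i => Ideal.Quotient.mk_surjective (b i)
  obtain ⟨J, hJ⟩ : ∃ J : Ideal (MvPolynomial (Fin 3) L), J = P.map (MvPolynomial.map f) := ⟨_, rfl⟩
  rw [← hJ] at hfin hcard ⊢
  have hsmul : ∀ (a : L) (F : MvPolynomial (Fin 3) L),
      Ideal.Quotient.mk J (C a * F) = a • Ideal.Quotient.mk J F := by
    intro a F
    rw [← MvPolynomial.smul_eq_C_mul]
    rfl
  have hkey : ∀ q : MvPolynomial (Fin 3) O, Ideal.Quotient.mk J (MvPolynomial.map f q) =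
      ∑ i, f (b.repr (Ideal.Quotient.mk P q) i) • Ideal.Quotient.mk J (MvPolynomial.map f (p i)) := by
    intro q
    have h1 : q - ∑ i, C (b.repr (Ideal.Quotient.mk P q) i) * p i ∈ P := by
      rw [← Ideal.Quotient.eq, map_sum]
      conv_lhs => rw [← b.sum_repr (Ideal.Quotient.mk P q)]
      refine Finset.sum_congr rfl fun i _ => ?_
      rw [← hp i, ← MvPolynomial.smul_eq_C_mul]
      rfl
    have h2 : MvPolynomial.map f (q - ∑ i, C (b.repr (Ideal.Quotient.mk P q) i) * p i) ∈ J := by
      rw [hJ]; exact Ideal.mem_map_of_mem _ h1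
    rw [map_sub, ← Ideal.Quotient.eq, map_sum, map_sum] at h2
    rw [h2]
    refine Finset.sum_congr rfl fun i _ => ?_
    rw [map_mul (MvPolynomial.map f), MvPolynomial.map_C, hsmul]
  have hspan : ⊤ ≤ Submodule.span L
      (Set.range fun i => Ideal.Quotient.mk J (MvPolynomial.map f (p i))) := by
    intro v _
    obtain ⟨F, rfl⟩ := Ideal.Quotient.mk_surjective v
    induction F using MvPolynomial.induction_on' with
    | monomial e a =>
      have h1 : (monomial e a : MvPolynomial (Fin 3) L) =
          C a * MvPolynomial.map f (monomial e 1) := by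
        rw [MvPolynomial.map_monomial, map_one, C_mul_monomial, mul_one]
      rw [h1, hsmul, hkey]
      exact Submodule.smul_mem _ _ (Submodule.sum_mem _ fun i _ =>
        Submodule.smul_mem _ _ (Submodule.subset_span ⟨i, rfl⟩))
    | add F G hF hG =>
      rw [map_add]
      exact Submodule.add_mem _ (hF trivial) (hG trivial)
  obtain ⟨bL, hbL⟩ : ∃ bL : Module.Basis ι L (MvPolynomial (Fin 3) L ⧸ J),
      ∀ i, bL i = Ideal.Quotient.mk J (MvPolynomial.map f (p i)) := by
    refine ⟨basisOfTopLeSpanOfCardEqFinrank _ hspan hcard.symm, fun i => ?_⟩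
    rw [coe_basisOfTopLeSpanOfCardEqFinrank]
  refine ⟨hfin, bL, fun i => ?_, hcard⟩
  ext k j
  change bL.repr (Ideal.Quotient.mk J (X i) * bL j) k = f (XM b i k j)
  have h1 : Ideal.Quotient.mk J (X i) * bL j = ∑ k, f (XM b i k j) • bL k := by
    have h2 : Ideal.Quotient.mk J (X i) * bL j =
        Ideal.Quotient.mk J (MvPolynomial.map f (X i * p j)) := by
      rw [hbL, ← map_mul, map_mul (MvPolynomial.map f), MvPolynomial.map_X]
    rw [h2, hkey]
    refine Finset.sum_congr rfl fun k _ => ?_
    rw [hbL]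
    congr 2
    change _ = b.repr (Ideal.Quotient.mk P (X i) * b j) k
    rw [← hp j, ← map_mul]
  rw [h1, bL.repr_sum_self]

/-- the rank formula for a fibre -/
theorem fibre_rank :
    Module.Finite L (MvPolynomial (Fin 3) L ⧸ P.map (MvPolynomial.map f)) ∧
    Module.finrank L (MvPolynomial (Fin 3) L ⧸ P.map (MvPolynomial.map f)) = Fintype.card ι ∧
    Module.finrank L ((P.map (MvPolynomial.map f) : Ideal (MvPolynomial (Fin 3) L))
        →ₗ[MvPolynomial (Fin 3) L] MvPolynomial (Fin 3) L ⧸ P.map (MvPolynomial.map f)) +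
      ((hess (XM b)).map f).rank = 2 * Fintype.card ι ^ 2 + Fintype.card ι := by
  obtain ⟨hfin, bL, hXM, hcard⟩ := fibre_basis P b f
  refine ⟨hfin, hcard, ?_⟩
  have h1 := Pool.Agent.H13.Par.finrank_hom_add_rank (P.map (MvPolynomial.map f))
  rw [hcard, ← rank_hess _ bL] at h1
  have h2 : hess (XM bL) = (hess (XM b)).map f := by
    rw [← hess_map]
    congr 1
    funext i
    exact hXM i
  rw [h2] at h1
  exact h1

end fibre

end Pool.Agent.H16.COD
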