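import Pool.Agent.H16.COD.Grp

/-!
# The discriminant of a family of ideals and the parity of the tangent dimension
-/

set_option autoImplicit false
set_option linter.unusedSectionVars false

namespace Pool.Agent.H16.COD

open MvPolynomial

universe u

theorem main {O : Type u} [CommRing O] [IsDomain O] [UniqueFactorizationMonoid O] [IsLocalRing O]
    (P : Ideal (MvPolynomial (Fin 3) O)) (hfree : Module.Free O (MvPolynomial (Fin 3) O ⧸ P))
    (hfin : Module.Finite O (MvPolynomial (Fin 3) O ⧸ P)) {Γ : Type u} [Group Γ]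
    (Φ : Γ →* RingAut (MvPolynomial (Fin 3) O)) (χ : Γ → IsLocalRing.ResidueField O)
    (hacts : ∀ g, (∀ p ∈ P, Φ g p ∈ P) ∧
      (∀ a : O, ∃ a' : O, Φ g (C a) = C a' ∧ IsLocalRing.residue O a' = IsLocalRing.residue O a) ∧
      ∃ (A : Matrix (Fin 3) (Fin 3) O) (b : Fin 3 → O),
        (∀ i, Φ g (X i) = ∑ j, C (A i j) * X j + C (b i)) ∧ χ g = IsLocalRing.residue O A.det)
    {K : Type u} [Field K] (j : O →+* K) (hj : Function.Injective j)
    (t d : ℕ) (ht : t = Module.finrank K ((P.map (MvPolynomial.map j) :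
      Ideal (MvPolynomial (Fin 3) K)) →ₗ[MvPolynomial (Fin 3) K]
        MvPolynomial (Fin 3) K ⧸ P.map (MvPolynomial.map j)))
    (hd : d = Module.finrank K (MvPolynomial (Fin 3) K ⧸ P.map (MvPolynomial.map j))) :
    Module.Finite K (MvPolynomial (Fin 3) K ⧸ P.map (MvPolynomial.map j)) ∧
    (∃ e : Γ → Oˣ, (∃ m : O, Squarefree m ∧ (∀ g, Φ g (C m) = C (e g * m)) ∧
      ∀ p, Prime p → p ∣ m → ∀ (L : Type u) [Field L] (f : O →+* L),
        RingHom.ker f = Ideal.span {p} → t < Module.finrank L ((P.map (MvPolynomial.map f) :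
          Ideal (MvPolynomial (Fin 3) L)) →ₗ[MvPolynomial (Fin 3) L]
            MvPolynomial (Fin 3) L ⧸ P.map (MvPolynomial.map f))) ∧
      ∃ ψ : Γ →* IsLocalRing.ResidueField O, ∀ g,
        χ g ^ (t + d) * IsLocalRing.residue O (e g : O) = ψ g ^ 2) ∧
    ∃ χ' : Γ →* IsLocalRing.ResidueField O, ∀ g, χ' g = χ g := by
  classical
  have hCinj : Function.Injective (C : O → MvPolynomial (Fin 3) O) := MvPolynomial.C_injective _ _
  choose hP hrest using hacts
  choose hρ0 hA0 using hrest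
  choose ρ0 hρC hρres using hρ0
  choose A c hX hχ using hA0
  obtain ⟨ρ, hρ⟩ : ∃ ρ : Γ → O →+* O, ∀ g a, ρ g a = ρ0 g a := by
    refine ⟨fun g => { toFun := ρ0 g, map_one' := ?_, map_mul' := ?_, map_zero' := ?_,
                       map_add' := ?_ }, fun g a => rfl⟩
    · apply hCinj; rw [← hρC, map_one, map_one]
    · intro a b
      apply hCinj
      rw [← hρC, map_mul, map_mul, hρC, hρC, map_mul]
    · apply hCinj; rw [← hρC, map_zero, map_zero]
    · intro a b
      apply hCinj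
      rw [← hρC, map_add, map_add, hρC, hρC, map_add]
  obtain ⟨b, _⟩ : ∃ b : Module.Basis (Module.Free.ChooseBasisIndex O (MvPolynomial (Fin 3) O ⧸ P)) O
      (MvPolynomial (Fin 3) O ⧸ P), b = Module.Free.chooseBasis O _ := ⟨_, rfl⟩
  obtain ⟨r, hr⟩ : ∃ r, ((hess (XM b)).map (algebraMap O (FractionRing O))).rank = r := ⟨_, rfl⟩
  obtain ⟨m, hm, hjump, e, he, ⟨ψ, hψ⟩, ⟨χ', hχ'⟩⟩ := group_core P b
    (fun g => ((Φ g : RingAut (MvPolynomial (Fin 3) O)) :
      MvPolynomial (Fin 3) O →+* MvPolynomial (Fin 3) O))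
    (fun p => by
      change (Φ 1) p = p
      rw [map_one]; rfl)
    (fun g h p => by
      change (Φ (g * h)) p = Φ g (Φ h p)
      rw [map_mul]; rfl)
    hP ρ
    (fun g a => by
      change (Φ g) (C a) = C (ρ g a)
      rw [hρC, hρ])
    (fun g a => by
      rw [← IsLocalRing.residue_eq_zero_iff, map_sub, hρ, hρres, sub_self])
    A c hX r hr
  obtain ⟨hfK, hdK, htK⟩ := fibre_rank P b j
  have hrK : ((hess (XM b)).map j).rank = r := by
    have h1 : (hess (XM b)).map j =
        ((hess (XM b)).map (algebraMap O (FractionRing O))).map (IsFractionRing.lift hj) := by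
      ext x y
      exact (IsFractionRing.lift_algebraMap (K := FractionRing O) hj _).symm
    rw [h1, rank_map_field _ _ (by rw [← Matrix.transpose_map, hess_symm]), hr]
  rw [hrK, ← ht] at htK
  rw [← hd] at hdK
  rw [← hdK] at htK
  refine ⟨hfK, ⟨e, ⟨m, hm, ?_, ?_⟩, ?_⟩, ⟨χ', fun g => ?_⟩⟩
  · intro g
    have h1 := he g
    rw [hρC, ← hρ, h1]
  · intro p hp hpm L _ f hker
    have h1 := hjump p hp hpm L f hker
    obtain ⟨_, _, htL⟩ := fibre_rank P b f
    rw [← hdK] at htL
    omega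
  · refine ⟨{ toFun := fun g => χ g ^ (d ^ 2 + d) * ψ g, map_one' := ?_, map_mul' := ?_ }, ?_⟩
    · rw [hχ, ← hχ', map_one, map_one, one_pow, one_mul]
    · intro g h
      rw [hχ, hχ, hχ, ← hχ', ← hχ', ← hχ', map_mul, map_mul, mul_pow]
      ring
    · intro g
      change _ = (χ g ^ (d ^ 2 + d) * ψ g) ^ 2
      rw [hψ, ← hχ g, mul_pow, ← mul_assoc, ← pow_add, ← pow_mul]
      congr 2
      have h2 : t + d + r = (d ^ 2 + d) * 2 := by linarith
      exact h2
  · rw [hχ', hχ]

end Pool.Agent.H16.COD
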