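import Mathlib

/-!
# The Hessian form of the potential `tr (x [y, z])` over a commutative ring
-/

set_option autoImplicit false
set_option linter.unusedSectionVars false

namespace Pool.Agent.H16.COD

open Matrix

section form

variable {R ι : Type*} [CommRing R] [Fintype ι] [DecidableEq ι]

/-- `tr ((x y - y x) z)` -/
def tr3 (x y z : Matrix ι ι R) : R := Matrix.trace ((x * y - y * x) * z)

theorem tr3_add_left (x x' y z : Matrix ι ι R) : tr3 (x + x') y z = tr3 x y z + tr3 x' y z := by
  unfold tr3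
  rw [← Matrix.trace_add]
  congr 1
  noncomm_ring

theorem tr3_add_mid (x y y' z : Matrix ι ι R) : tr3 x (y + y') z = tr3 x y z + tr3 x y' z := by
  unfold tr3
  rw [← Matrix.trace_add]
  congr 1
  noncomm_ring

theorem tr3_add_right (x y z z' : Matrix ι ι R) : tr3 x y (z + z') = tr3 x y z + tr3 x y z' := by
  unfold tr3
  rw [← Matrix.trace_add, Matrix.mul_add]

theorem tr3_smul_left (a : R) (x y z : Matrix ι ι R) : tr3 (a • x) y z = a * tr3 x y z := by
  unfold tr3
  rw [Matrix.smul_mul, Matrix.mul_smul, ← smul_sub, Matrix.smul_mul, Matrix.trace_smul, smul_eq_mul]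

theorem tr3_smul_mid (a : R) (x y z : Matrix ι ι R) : tr3 x (a • y) z = a * tr3 x y z := by
  unfold tr3
  rw [Matrix.smul_mul, Matrix.mul_smul, ← smul_sub, Matrix.smul_mul, Matrix.trace_smul, smul_eq_mul]

theorem tr3_smul_right (a : R) (x y z : Matrix ι ι R) : tr3 x y (a • z) = a * tr3 x y z := by
  unfold tr3
  rw [Matrix.mul_smul, Matrix.trace_smul, smul_eq_mul]

theorem tr3_one (y z : Matrix ι ι R) : tr3 1 y z = 0 := by
  unfold tr3
  rw [Matrix.one_mul, Matrix.mul_one, sub_self, Matrix.zero_mul, Matrix.trace_zero]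

theorem tr3_swap (x y z : Matrix ι ι R) : tr3 x y z = - tr3 x z y := by
  unfold tr3
  rw [Matrix.sub_mul, Matrix.sub_mul, Matrix.trace_sub, Matrix.trace_sub]
  have h1 : Matrix.trace (x * y * z) = Matrix.trace (z * x * y) := by
    rw [Matrix.trace_mul_comm, Matrix.mul_assoc]
  have h2 : Matrix.trace (y * x * z) = Matrix.trace (x * z * y) := by
    rw [Matrix.mul_assoc, Matrix.trace_mul_comm]
  rw [h1, h2]
  ring

/-- the Hessian form at the triple `X` -/
def form (X u v : Fin 3 → Matrix ι ι R) : R :=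
  tr3 (X 1) (u 2) (v 0) - tr3 (X 2) (u 1) (v 0) + tr3 (X 2) (u 0) (v 1) - tr3 (X 0) (u 2) (v 1)
    + tr3 (X 0) (u 1) (v 2) - tr3 (X 1) (u 0) (v 2)

theorem form_symm (X u v : Fin 3 → Matrix ι ι R) : form X u v = form X v u := by
  unfold form
  rw [tr3_swap (X 1) (u 2), tr3_swap (X 2) (u 1), tr3_swap (X 2) (u 0), tr3_swap (X 0) (u 2),
    tr3_swap (X 0) (u 1), tr3_swap (X 1) (u 0)]
  ring

theorem form_mix (A : Matrix (Fin 3) (Fin 3) R) (c : Fin 3 → R) (Y U V : Fin 3 → Matrix ι ι R) :
    form (fun i => (∑ j, A i j • Y j) + c i • 1) (fun i => ∑ j, A i j • U j)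
      (fun i => ∑ j, A i j • V j) = A.det * form Y U V := by
  unfold form
  simp only [Fin.sum_univ_three, tr3_add_left, tr3_add_mid, tr3_add_right, tr3_smul_left,
    tr3_smul_mid, tr3_smul_right, tr3_one, Matrix.det_fin_three]
  ring

theorem tr3_map {S : Type*} [CommRing S] (f : R →+* S) (x y z : Matrix ι ι R) :
    tr3 (x.map f) (y.map f) (z.map f) = f (tr3 x y z) := by
  unfold tr3
  have h1 : (x.map f * y.map f - y.map f * x.map f) * z.map f = ((x * y - y * x) * z).map f := by
    rw [Matrix.map_mul, Matrix.map_sub f (map_sub f), Matrix.map_mul, Matrix.map_mul]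
  rw [h1]
  exact (AddMonoidHom.map_trace f.toAddMonoidHom ((x * y - y * x) * z)).symm

theorem form_map {S : Type*} [CommRing S] (f : R →+* S) (X u v : Fin 3 → Matrix ι ι R) :
    form (fun i => (X i).map f) (fun i => (u i).map f) (fun i => (v i).map f)
      = f (form X u v) := by
  unfold form
  simp only [tr3_map, map_add, map_sub]

theorem tr3_conj (F Fi : Matrix ι ι R) (h : Fi * F = 1) (x y z : Matrix ι ι R) :
    tr3 (F * x * Fi) (F * y * Fi) (F * z * Fi) = tr3 x y z := by
  unfold tr3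
  have h1 : (F * x * Fi * (F * y * Fi) - F * y * Fi * (F * x * Fi)) * (F * z * Fi)
      = F * ((x * y - y * x) * z * Fi) := by
    have e1 : ∀ a b : Matrix ι ι R, F * a * Fi * (F * b * Fi) = F * (a * b) * Fi := by
      intro a b
      calc F * a * Fi * (F * b * Fi) = F * a * (Fi * F) * b * Fi := by noncomm_ring
        _ = F * (a * b) * Fi := by rw [h]; noncomm_ring
    rw [e1, e1, ← Matrix.sub_mul, ← Matrix.mul_sub, e1]
    noncomm_ring
  rw [h1, Matrix.trace_mul_comm, Matrix.mul_assoc, h, Matrix.mul_one]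

theorem form_conj (F Fi : Matrix ι ι R) (h : Fi * F = 1) (X u v : Fin 3 → Matrix ι ι R) :
    form (fun i => F * X i * Fi) (fun i => F * u i * Fi) (fun i => F * v i * Fi) = form X u v := by
  unfold form
  simp only [tr3_conj F Fi h]

/-- triples of matrices from vectors -/
def un (x : Fin 3 × ι × ι → R) : Fin 3 → Matrix ι ι R := fun i => Matrix.of fun a b => x (i, a, b)

/-- vectors from triples of matrices -/
def vec (u : Fin 3 → Matrix ι ι R) : Fin 3 × ι × ι → R := fun p => u p.1 p.2.1 p.2.2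

theorem un_vec (u : Fin 3 → Matrix ι ι R) : un (vec u) = u := rfl

theorem vec_un (x : Fin 3 × ι × ι → R) : vec (un x) = x := rfl

theorem un_add (x y : Fin 3 × ι × ι → R) : un (x + y) = un x + un y := rfl

theorem un_smul (a : R) (x : Fin 3 × ι × ι → R) : un (a • x) = a • un x := rfl

/-- the Hessian form as a bilinear map -/
def Bil (X : Fin 3 → Matrix ι ι R) :
    (Fin 3 × ι × ι → R) →ₗ[R] (Fin 3 × ι × ι → R) →ₗ[R] R :=
  LinearMap.mk₂ R (fun x y => form X (un x) (un y))
    (fun x x' y => by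
      simp only [un_add, form, Pi.add_apply, tr3_add_mid]; ring)
    (fun a x y => by
      simp only [un_smul, form, Pi.smul_apply, tr3_smul_mid, smul_eq_mul]; ring)
    (fun x y y' => by
      simp only [un_add, form, Pi.add_apply, tr3_add_right]; ring)
    (fun a x y => by
      simp only [un_smul, form, Pi.smul_apply, tr3_smul_right, smul_eq_mul]; ring)

theorem Bil_apply (X : Fin 3 → Matrix ι ι R) (x y : Fin 3 × ι × ι → R) :
    Bil X x y = form X (un x) (un y) := rfl

/-- the Hessian matrix -/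
def hess (X : Fin 3 → Matrix ι ι R) : Matrix (Fin 3 × ι × ι) (Fin 3 × ι × ι) R :=
  Matrix.of fun p q => form X (un (Pi.single p 1)) (un (Pi.single q 1))

theorem form_eq (X : Fin 3 → Matrix ι ι R) (x y : Fin 3 × ι × ι → R) :
    form X (un x) (un y) = x ⬝ᵥ (hess X *ᵥ y) := by
  have h1 : LinearMap.toMatrix₂' R (Bil X) = hess X := by
    ext p q
    rw [LinearMap.toMatrix₂'_apply, Bil_apply]
    rfl
  rw [← Bil_apply, ← h1]
  conv_lhs => rw [← Matrix.toLinearMap₂'_toMatrix' (R := R) (Bil X)]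
  rw [Matrix.toLinearMap₂'_apply']

theorem hess_symm (X : Fin 3 → Matrix ι ι R) : (hess X)ᵀ = hess X := by
  ext p q
  exact form_symm X _ _

theorem un_single_map {S : Type*} [CommRing S] (f : R →+* S) (p : Fin 3 × ι × ι) :
    (fun i => (un (Pi.single p (1 : R)) i).map f) = un (Pi.single p (1 : S)) := by
  funext i
  ext a b
  change f ((Pi.single p (1 : R) : Fin 3 × ι × ι → R) (i, a, b)) =
    (Pi.single p (1 : S) : Fin 3 × ι × ι → S) (i, a, b)
  rw [Pi.single_apply, Pi.single_apply]
  split_ifs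
  · exact map_one f
  · exact map_zero f

theorem hess_map {S : Type*} [CommRing S] (f : R →+* S) (X : Fin 3 → Matrix ι ι R) :
    hess (fun i => (X i).map f) = (hess X).map f := by
  ext p q
  change form (fun i => (X i).map f) (un (Pi.single p 1)) (un (Pi.single q 1)) =
    f (form X (un (Pi.single p 1)) (un (Pi.single q 1)))
  rw [← form_map, un_single_map, un_single_map]

end form

section act

variable {R ι : Type*} [CommRing R] [Fintype ι] [DecidableEq ι]

/-- the semilinear action on triples -/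
def act (A : Matrix (Fin 3) (Fin 3) R) (F Fi : Matrix ι ι R) (f : R →+* R)
    (u : Fin 3 → Matrix ι ι R) : Fin 3 → Matrix ι ι R :=
  fun i => ∑ j, A i j • (F * (u j).map f * Fi)

theorem form_act (A : Matrix (Fin 3) (Fin 3) R) (F Fi : Matrix ι ι R) (f : R →+* R)
    (h : Fi * F = 1) (X : Fin 3 → Matrix ι ι R) (c : Fin 3 → R)
    (hX : ∀ i, X i = (∑ j, A i j • (F * (X j).map f * Fi)) + c i • 1)
    (u v : Fin 3 → Matrix ι ι R) :
    form X (act A F Fi f u) (act A F Fi f v) = A.det * f (form X u v) := by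
  have h1 : X = fun i => (∑ j, A i j • (F * (X j).map f * Fi)) + c i • 1 := funext hX
  conv_lhs => rw [h1]
  have h2 := form_mix A c (fun j => F * (X j).map f * Fi) (fun j => F * (u j).map f * Fi)
    (fun j => F * (v j).map f * Fi)
  rw [form_conj F Fi h, form_map] at h2
  exact h2

theorem act_sum (A : Matrix (Fin 3) (Fin 3) R) (F Fi : Matrix ι ι R) (f : R →+* R)
    {κ : Type*} (s : Finset κ) (a : κ → R) (u : κ → Fin 3 → Matrix ι ι R) :
    act A F Fi f (∑ p ∈ s, a p • u p) = ∑ p ∈ s, f (a p) • act A F Fi f (u p) := by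
  funext i
  unfold act
  simp only [Finset.sum_apply, Pi.smul_apply, Finset.smul_sum]
  rw [Finset.sum_comm]
  refine Finset.sum_congr rfl fun j _ => ?_
  have h1 : (∑ p ∈ s, a p • u p j).map f = ∑ p ∈ s, f (a p) • (u p j).map f := by
    ext x y
    rw [Matrix.map_apply, Matrix.sum_apply, Matrix.sum_apply, map_sum]
    refine Finset.sum_congr rfl fun p _ => ?_
    rw [Matrix.smul_apply, Matrix.smul_apply, smul_eq_mul, smul_eq_mul, map_mul, Matrix.map_apply]
  rw [h1, Matrix.mul_sum, Matrix.sum_mul, Finset.smul_sum]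
  refine Finset.sum_congr rfl fun p _ => ?_
  rw [Matrix.mul_smul, Matrix.smul_mul, smul_comm]

/-- matrix of the semilinear action -/
def gm (A : Matrix (Fin 3) (Fin 3) R) (F Fi : Matrix ι ι R) (f : R →+* R) :
    Matrix (Fin 3 × ι × ι) (Fin 3 × ι × ι) R :=
  Matrix.of fun q p => vec (act A F Fi f (un (Pi.single p 1))) q

theorem gm_mulVec (A : Matrix (Fin 3) (Fin 3) R) (F Fi : Matrix ι ι R) (f : R →+* R)
    (x : Fin 3 × ι × ι → R) :
    gm A F Fi f *ᵥ (fun p => f (x p)) = vec (act A F Fi f (un x)) := by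
  have h1 : un x = ∑ p, x p • un (Pi.single p (1 : R)) := by
    have h2 : x = ∑ p, x p • (Pi.single p (1 : R) : Fin 3 × ι × ι → R) := by
      funext q
      rw [Finset.sum_apply, Finset.sum_eq_single q]
      · rw [Pi.smul_apply, Pi.single_eq_same, smul_eq_mul, mul_one]
      · intro b _ hb
        rw [Pi.smul_apply, Pi.single_eq_of_ne hb.symm, smul_zero]
      · intro h; exact absurd (Finset.mem_univ q) h
    funext i
    ext a b
    rw [Finset.sum_apply, Matrix.sum_apply]
    change x (i, a, b) = ∑ p, x p * (Pi.single p (1 : R) : Fin 3 × ι × ι → R) (i, a, b)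
    have h3 := congrFun h2 (i, a, b)
    rw [Finset.sum_apply] at h3
    exact h3
  rw [h1, act_sum]
  funext q
  change ∑ p, gm A F Fi f q p * f (x p) =
    (∑ p, f (x p) • act A F Fi f (un (Pi.single p 1))) q.1 q.2.1 q.2.2
  rw [Finset.sum_apply, Matrix.sum_apply]
  refine Finset.sum_congr rfl fun p _ => ?_
  rw [mul_comm]
  rfl

theorem gm_hess (A : Matrix (Fin 3) (Fin 3) R) (F Fi : Matrix ι ι R) (f : R →+* R)
    (h : Fi * F = 1) (X : Fin 3 → Matrix ι ι R) (c : Fin 3 → R)
    (hX : ∀ i, X i = (∑ j, A i j • (F * (X j).map f * Fi)) + c i • 1) :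
    (gm A F Fi f)ᵀ * hess X * gm A F Fi f = A.det • (hess X).map f := by
  ext p q
  have h1 : ((gm A F Fi f)ᵀ * hess X * gm A F Fi f) p q =
      (fun a => gm A F Fi f a p) ⬝ᵥ (hess X *ᵥ fun b => gm A F Fi f b q) := by
    rw [Matrix.mul_assoc, Matrix.mul_apply]
    rfl
  have h2 : ∀ p, (fun a => gm A F Fi f a p) = vec (act A F Fi f (un (Pi.single p 1))) :=
    fun p => rfl
  rw [h1, h2, h2, ← form_eq, un_vec, un_vec, form_act A F Fi f h X c hX]
  rfl

theorem act_act (A A' : Matrix (Fin 3) (Fin 3) R) (F Fi F' Fi' : Matrix ι ι R) (f f' : R →+* R)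
    (u : Fin 3 → Matrix ι ι R) :
    act A F Fi f (act A' F' Fi' f' u) =
      act (A * A'.map f) (F * F'.map f) (Fi'.map f * Fi) (f.comp f') u := by
  funext i
  unfold act
  have h1 : ∀ j, (∑ k, A' j k • (F' * (u k).map f' * Fi')).map f =
      ∑ k, f (A' j k) • (F'.map f * (u k).map (f.comp f') * Fi'.map f) := by
    intro j
    have h2 : ∀ k, F'.map f * (u k).map (f.comp f') * Fi'.map f =
        (F' * (u k).map f' * Fi').map f := by
      intro k
      rw [Matrix.map_mul, Matrix.map_mul]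
      rfl
    ext x y
    rw [Matrix.map_apply, Matrix.sum_apply, Matrix.sum_apply, map_sum]
    refine Finset.sum_congr rfl fun k _ => ?_
    rw [h2, Matrix.smul_apply, Matrix.smul_apply, smul_eq_mul, smul_eq_mul, map_mul,
      Matrix.map_apply]
  simp only [h1, Matrix.mul_sum, Matrix.sum_mul, Finset.smul_sum]
  rw [Finset.sum_comm]
  refine Finset.sum_congr rfl fun k _ => ?_
  rw [Matrix.mul_apply, Finset.sum_smul]
  refine Finset.sum_congr rfl fun j _ => ?_
  rw [Matrix.mul_smul, Matrix.smul_mul, smul_smul, Matrix.map_apply]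
  congr 1
  simp only [Matrix.mul_assoc]

theorem gm_gm (A A' : Matrix (Fin 3) (Fin 3) R) (F Fi F' Fi' : Matrix ι ι R) (f f' : R →+* R) :
    gm (A * A'.map f) (F * F'.map f) (Fi'.map f * Fi) (f.comp f') =
      gm A F Fi f * (gm A' F' Fi' f').map f := by
  ext q p
  have h1 : (gm A F Fi f * (gm A' F' Fi' f').map f) q p =
      (gm A F Fi f *ᵥ (fun a => f (gm A' F' Fi' f' a p))) q := rfl
  have h2 : (fun a => f (gm A' F' Fi' f' a p)) =
      fun a => f (vec (act A' F' Fi' f' (un (Pi.single p 1))) a) := rfl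
  rw [h1, h2, gm_mulVec, un_vec, act_act]
  rfl

theorem gm_one (f : R →+* R) (hf : ∀ a, f a = a) :
    gm (1 : Matrix (Fin 3) (Fin 3) R) (1 : Matrix ι ι R) 1 f = 1 := by
  ext q p
  change act (1 : Matrix (Fin 3) (Fin 3) R) (1 : Matrix ι ι R) 1 f (un (Pi.single p 1))
    q.1 q.2.1 q.2.2 = _
  unfold act
  rw [Finset.sum_eq_single q.1]
  · rw [Matrix.one_apply_eq, one_smul, Matrix.one_mul, Matrix.mul_one, Matrix.map_apply, hf]
    change (Pi.single p (1 : R) : Fin 3 × ι × ι → R) (q.1, q.2.1, q.2.2) = _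
    rw [Matrix.one_apply, Pi.single_apply]
  · intro j _ hj
    rw [Matrix.one_apply_ne hj.symm, zero_smul]
  · intro h
    exact absurd (Finset.mem_univ _) h

end act

end Pool.Agent.H16.COD
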