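import Pool.Agent.H16.COD.Field
import Pool.Agent.H16.COD.Core

/-!
# Group actions by affine substitutions
-/

set_option autoImplicit false
set_option linter.unusedSectionVars false

namespace Pool.Agent.H16.COD

open MvPolynomial Matrix

universe u

section lin

variable {O : Type u} [CommRing O] {Γ : Type*} [Group Γ]

/-- the linear part of a composition of affine substitutions -/
theorem lin_unique {A A' : Matrix (Fin 3) (Fin 3) O} {b b' : Fin 3 → O}
    (h : ∀ i, ∑ j, C (A i j) * (X j : MvPolynomial (Fin 3) O) + C (b i) =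
      ∑ j, C (A' i j) * X j + C (b' i)) : A = A' := by
  ext i l
  have h2 := congrArg (coeff (Finsupp.single l 1)) (h i)
  have hcX : ∀ j, coeff (Finsupp.single l 1) (X j : MvPolynomial (Fin 3) O)
      = if j = l then 1 else 0 := by
    intro j
    rw [coeff_X]
    by_cases hj : j = l
    · subst hj; simp
    · rw [if_neg hj, if_neg]
      intro h3
      exact hj ((Finsupp.single_left_inj one_ne_zero).mp h3)
  have hne : (0 : Fin 3 →₀ ℕ) ≠ Finsupp.single l 1 := by
    intro h
    have := DFunLike.congr_fun h l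
    simp at this
  simp only [coeff_add, coeff_sum, coeff_C_mul, hcX, coeff_C, hne, if_false, add_zero] at h2
  simpa using h2

theorem subst_comp (f : MvPolynomial (Fin 3) O →+* MvPolynomial (Fin 3) O) (ρ : O →+* O)
    (hC : ∀ a, f (C a) = C (ρ a)) (A A' : Matrix (Fin 3) (Fin 3) O) (b b' : Fin 3 → O)
    (hX : ∀ i, f (X i) = ∑ j, C (A i j) * X j + C (b i)) (i : Fin 3) :
    f (∑ j, C (A' i j) * X j + C (b' i)) =
      ∑ k, C ((A'.map ρ * A) i k) * X k + C (∑ j, ρ (A' i j) * b j + ρ (b' i)) := by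
  rw [map_add, map_sum, hC]
  simp only [map_mul, hC, hX, mul_add, Finset.sum_add_distrib]
  have h1 : ∑ j, C (ρ (A' i j)) * ∑ k, C (A j k) * (X k : MvPolynomial (Fin 3) O) =
      ∑ k, C ((A'.map ρ * A) i k) * X k := by
    simp only [Finset.mul_sum, Matrix.mul_apply, map_sum, Finset.sum_mul, Matrix.map_apply]
    rw [Finset.sum_comm]
    refine Finset.sum_congr rfl fun k _ => Finset.sum_congr rfl fun j _ => ?_
    rw [map_mul, mul_assoc]
  rw [h1, map_add C, map_sum C, add_assoc]
  congr 2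
  refine Finset.sum_congr rfl fun j _ => ?_
  rw [map_mul]

end lin

section grp

variable {O : Type u} [CommRing O] [IsDomain O] [UniqueFactorizationMonoid O] [IsLocalRing O]
  (P : Ideal (MvPolynomial (Fin 3) O)) {ι : Type*} [Fintype ι] [DecidableEq ι]
  (b : Module.Basis ι O (MvPolynomial (Fin 3) O ⧸ P))
  {Γ : Type*} [Group Γ]

/-- matrix of a semilinear ring endomorphism of the quotient -/
noncomputable def FM (φ : (MvPolynomial (Fin 3) O ⧸ P) → (MvPolynomial (Fin 3) O ⧸ P)) :
    Matrix ι ι O :=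
  Matrix.of fun k j => b.repr (φ (b j)) k

theorem FM_spec (φ : (MvPolynomial (Fin 3) O ⧸ P) → (MvPolynomial (Fin 3) O ⧸ P)) (j : ι) :
    φ (b j) = ∑ k, FM P b φ k j • b k := (b.sum_repr _).symm

theorem group_core (Φ : Γ → MvPolynomial (Fin 3) O →+* MvPolynomial (Fin 3) O)
    (hΦ1 : ∀ p, Φ 1 p = p) (hΦ : ∀ g h p, Φ (g * h) p = Φ g (Φ h p))
    (hP : ∀ g, ∀ p ∈ P, Φ g p ∈ P) (ρ : Γ → O →+* O) (hC : ∀ g a, Φ g (C a) = C (ρ g a))
    (htriv : ∀ g a, ρ g a - a ∈ IsLocalRing.maximalIdeal O)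
    (A : Γ → Matrix (Fin 3) (Fin 3) O) (c : Γ → Fin 3 → O)
    (hX : ∀ g i, Φ g (X i) = ∑ j, C (A g i j) * X j + C (c g i)) (r : ℕ)
    (hr : ((hess (XM b)).map (algebraMap O (FractionRing O))).rank = r) :
    ∃ m : O, Squarefree m ∧
      (∀ p, Prime p → p ∣ m → ∀ (L : Type u) [Field L] (f : O →+* L),
        RingHom.ker f = Ideal.span {p} → ((hess (XM b)).map f).rank < r) ∧
      ∃ e : Γ → Oˣ, (∀ g, ρ g m = e g * m) ∧
        (∃ ψ : Γ →* IsLocalRing.ResidueField O, ∀ g,
          IsLocalRing.residue O (e g : O) =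
            IsLocalRing.residue O (A g).det ^ r * ψ g ^ 2) ∧
        ∃ χ : Γ →* IsLocalRing.ResidueField O, ∀ g, χ g = IsLocalRing.residue O (A g).det := by
  have hCinj : Function.Injective (C : O → MvPolynomial (Fin 3) O) := MvPolynomial.C_injective _ _
  have hρ1 : ∀ a, ρ 1 a = a := fun a => hCinj (by rw [← hC, hΦ1])
  have hρ : ∀ g h a, ρ (g * h) a = ρ g (ρ h a) := fun g h a => hCinj (by
    rw [← hC, hΦ, hC, hC])
  have hρc : ∀ g h, ρ (g * h) = (ρ g).comp (ρ h) := fun g h => RingHom.ext fun a => hρ g h a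
  -- linear parts
  have hA1 : A 1 = 1 := by
    refine lin_unique (b := c 1) (b' := 0) fun i => ?_
    rw [← hX, hΦ1]
    simp only [Matrix.one_apply, Pi.zero_apply, map_zero, add_zero]
    rw [Finset.sum_eq_single i]
    · rw [if_pos rfl, map_one, one_mul]
    · intro j _ hj
      rw [if_neg hj.symm, map_zero, zero_mul]
    · intro h; exact absurd (Finset.mem_univ i) h
  have hA : ∀ g h, A (g * h) = (A h).map (ρ g) * A g := by
    intro g h
    refine lin_unique (b := c (g * h))
      (b' := fun i => ∑ j, ρ g (A h i j) * c g j + ρ g (c h i)) fun i => ?_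
    rw [← hX, hΦ, hX h]
    exact subst_comp (Φ g) (ρ g) (hC g) (A g) (A h) (c g) (c h) (hX g) i
  -- the action on the quotient
  obtain ⟨φ, hφ⟩ : ∃ φ : Γ → (MvPolynomial (Fin 3) O ⧸ P) →+* (MvPolynomial (Fin 3) O ⧸ P),
      ∀ g p, φ g (Ideal.Quotient.mk P p) = Ideal.Quotient.mk P (Φ g p) :=
    ⟨fun g => Ideal.quotientMap P (Φ g) (fun p hp => hP g p hp), fun g p => rfl⟩
  have hφ1 : ∀ v, φ 1 v = v := by
    intro v
    obtain ⟨p, rfl⟩ := Ideal.Quotient.mk_surjective v
    rw [hφ, hΦ1]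
  have hφm : ∀ g h v, φ (g * h) v = φ g (φ h v) := by
    intro g h v
    obtain ⟨p, rfl⟩ := Ideal.Quotient.mk_surjective v
    rw [hφ, hφ, hφ, hΦ]
  have hsm : ∀ (a : O) (v : MvPolynomial (Fin 3) O ⧸ P), a • v = Ideal.Quotient.mk P (C a) * v := by
    intro a v
    obtain ⟨p, rfl⟩ := Ideal.Quotient.mk_surjective v
    rw [← map_mul, ← MvPolynomial.smul_eq_C_mul]
    rfl
  have hφs : ∀ g (a : O) v, φ g (a • v) = ρ g a • φ g v := by
    intro g a v
    rw [hsm, map_mul, hφ, hC, ← hsm]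
  obtain ⟨F, hF⟩ : ∃ F : Γ → Matrix ι ι O, ∀ g j, φ g (b j) = ∑ k, F g k j • b k :=
    ⟨fun g => FM P b (φ g), fun g j => FM_spec P b (φ g) j⟩
  have huniq : ∀ {M N : Matrix ι ι O}, (∀ j, ∑ k, M k j • b k = ∑ k, N k j • b k) → M = N := by
    intro M N h
    ext k j
    have h1 := congrArg (fun v => b.repr v k) (h j)
    simp only [b.repr_sum_self] at h1
    exact h1
  have hF1 : F 1 = 1 := by
    apply huniq
    intro j
    rw [← hF, hφ1]
    rw [Finset.sum_eq_single j]
    · rw [Matrix.one_apply_eq, one_smul]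
    · intro k _ hk
      rw [Matrix.one_apply_ne hk, zero_smul]
    · intro h; exact absurd (Finset.mem_univ j) h
  have hcomp : ∀ (M N : Matrix ι ι O) j, ∑ k, N k j • ∑ l, M l k • b l =
      ∑ l, (M * N) l j • b l := by
    intro M N j
    simp only [Finset.smul_sum, smul_smul]
    rw [Finset.sum_comm]
    refine Finset.sum_congr rfl fun l _ => ?_
    rw [Matrix.mul_apply, Finset.sum_smul]
    refine Finset.sum_congr rfl fun k _ => ?_
    rw [mul_comm]
  have hFm : ∀ g h, F (g * h) = F g * (F h).map (ρ g) := by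
    intro g h
    apply huniq
    intro j
    rw [← hF, hφm, hF h, map_sum, ← hcomp]
    refine Finset.sum_congr rfl fun k _ => ?_
    rw [hφs, hF g]
    rfl
  have hFX : ∀ g i, F g * (XM b i).map (ρ g) =
      (∑ l, A g i l • XM b l + c g i • 1) * F g := by
    intro g i
    apply huniq
    intro j
    rw [← hcomp, ← hcomp]
    have h1 : φ g (Ideal.Quotient.mk P (X i) * b j) =
        ∑ k, ((XM b i).map (ρ g)) k j • ∑ l, F g l k • b l := by
      rw [XM_spec, map_sum]
      refine Finset.sum_congr rfl fun k _ => ?_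
      rw [hφs, hF g]
      rfl
    rw [← h1, map_mul, hφ, hX, hF g, Finset.mul_sum]
    refine Finset.sum_congr rfl fun k _ => ?_
    rw [mul_smul_comm]
    congr 1
    have h2 : ∑ l, (∑ l, A g i l • XM b l + c g i • (1 : Matrix ι ι O)) l k • b l =
        (∑ m, A g i m • ∑ l, XM b m l k • b l) + c g i • b k := by
      simp only [Matrix.add_apply, Matrix.sum_apply, Matrix.smul_apply, add_smul,
        Finset.sum_add_distrib, smul_eq_mul]
      congr 1
      · simp only [Finset.sum_smul, Finset.smul_sum, smul_smul]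
        rw [Finset.sum_comm]
      · rw [Finset.sum_eq_single k]
        · rw [Matrix.one_apply_eq, mul_one]
        · intro l _ hl
          rw [Matrix.one_apply_ne hl, mul_zero, zero_smul]
        · intro h; exact absurd (Finset.mem_univ k) h
    rw [h2, map_add, map_sum, add_mul, Finset.sum_mul]
    congr 1
    · refine Finset.sum_congr rfl fun m _ => ?_
      rw [map_mul, mul_assoc, ← XM_spec, ← hsm]
    · rw [← hsm]
  -- inverse matrices
  obtain ⟨Fi, hFi⟩ : ∃ Fi : Γ → Matrix ι ι O, ∀ g, Fi g = (F g⁻¹).map (ρ g) := ⟨_, fun _ => rfl⟩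
  obtain ⟨Ai, hAi⟩ : ∃ Ai : Γ → Matrix (Fin 3) (Fin 3) O, ∀ g, Ai g = (A g⁻¹).map (ρ g) :=
    ⟨_, fun _ => rfl⟩
  have hFFi : ∀ g, F g * Fi g = 1 := by
    intro g
    rw [hFi, ← hFm, mul_inv_cancel, hF1]
  have hFiF : ∀ g, Fi g * F g = 1 := fun g => mul_eq_one_comm.mp (hFFi g)
  have hAiA : ∀ g, Ai g * A g = 1 := by
    intro g
    rw [hAi, ← hA, mul_inv_cancel, hA1]
  have hAi1 : Ai 1 = 1 := by rw [hAi, inv_one, hA1, Matrix.map_one _ (map_zero _) (map_one _)]
  have hAim : ∀ g h, Ai (g * h) = Ai g * (Ai h).map (ρ g) := by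
    intro g h
    rw [hAi, hAi, hAi, _root_.mul_inv_rev, hA, Matrix.map_mul]
    have e1 : ((A g⁻¹).map (ρ h⁻¹)).map (ρ (g * h)) = (A g⁻¹).map (ρ g) := by
      ext x y
      change ρ (g * h) (ρ h⁻¹ _) = ρ g _
      rw [← hρ, mul_assoc, mul_inv_cancel, mul_one]
    have e2 : (A h⁻¹).map (ρ (g * h)) = ((A h⁻¹).map (ρ h)).map (ρ g) := by
      ext x y
      exact hρ g h _
    rw [e1, e2]
  have hFim : ∀ g h, Fi (g * h) = (Fi h).map (ρ g) * Fi g := by
    intro g h
    rw [hFi, hFi, hFi, _root_.mul_inv_rev, hFm, Matrix.map_mul]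
    have e1 : ((F g⁻¹).map (ρ h⁻¹)).map (ρ (g * h)) = (F g⁻¹).map (ρ g) := by
      ext x y
      change ρ (g * h) (ρ h⁻¹ _) = ρ g _
      rw [← hρ, mul_assoc, mul_inv_cancel, mul_one]
    have e2 : (F h⁻¹).map (ρ (g * h)) = ((F h⁻¹).map (ρ h)).map (ρ g) := by
      ext x y
      exact hρ g h _
    rw [e1, e2]
  -- the relation needed for the Hessian
  have hrel : ∀ g i, XM b i = (∑ j, Ai g i j • (F g * (XM b j).map (ρ g) * Fi g)) +
      (-(∑ j, Ai g i j * c g j)) • 1 := by
    intro g i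
    have h1 : ∀ j, F g * (XM b j).map (ρ g) * Fi g = ∑ l, A g j l • XM b l + c g j • 1 := by
      intro j
      rw [hFX, Matrix.mul_assoc, hFFi, Matrix.mul_one]
    simp only [h1, smul_add, Finset.sum_add_distrib, smul_smul]
    have h2 : ∑ j, Ai g i j • ∑ l, A g j l • XM b l = XM b i := by
      simp only [Finset.smul_sum, smul_smul]
      rw [Finset.sum_comm]
      have h3 : ∀ l, ∑ j, (Ai g i j * A g j l) • XM b l = (Ai g * A g) i l • XM b l := by
        intro l
        rw [Matrix.mul_apply, Finset.sum_smul]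
      simp only [h3, hAiA]
      rw [Finset.sum_eq_single i]
      · rw [Matrix.one_apply_eq, one_smul]
      · intro l _ hl
        rw [Matrix.one_apply_ne hl.symm, zero_smul]
      · intro h; exact absurd (Finset.mem_univ i) h
    rw [h2, neg_smul, Finset.sum_smul]
    abel
  -- apply the core
  have hδ : ∀ g h, (Ai (g * h)).det = (Ai g).det * ρ g (Ai h).det := by
    intro g h
    rw [hAim, Matrix.det_mul]
    congr 1
    exact (RingHom.map_det (ρ g) (Ai h)).symm
  obtain ⟨m, hm, hjump, e, he, ψ, hψ⟩ := core ρ hρ1 hρ htriv (hess (XM b)) (hess_symm _)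
    (fun g => gm (Ai g) (F g) (Fi g) (ρ g))
    (by
      rw [hAi1, hF1, hFi, inv_one, hF1, Matrix.map_one _ (map_zero _) (map_one _)]
      exact gm_one (ρ 1) hρ1)
    (by
      intro g h
      rw [hAim, hFm, hFim, hρc]
      exact gm_gm _ _ _ _ _ _ _ _)
    (fun g => (Ai g).det) (by rw [hAi1, Matrix.det_one]) hδ
    (fun g => gm_hess (Ai g) (F g) (Fi g) (ρ g) (hFiF g) (XM b) _ (hrel g)) r hr
  have hres : ∀ g a, IsLocalRing.residue O (ρ g a) = IsLocalRing.residue O a := by
    intro g a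
    rw [← sub_eq_zero, ← map_sub, IsLocalRing.residue_eq_zero_iff]
    exact htriv g a
  have hχ : ∃ χ : Γ →* IsLocalRing.ResidueField O, ∀ g, χ g = IsLocalRing.residue O (A g).det := by
    refine ⟨{ toFun := fun g => IsLocalRing.residue O (A g).det
              map_one' := by rw [hA1, Matrix.det_one, map_one]
              map_mul' := fun g h => ?_ }, fun g => rfl⟩
    have h1 : ((A h).map (ρ g)).det = ρ g (A h).det := (RingHom.map_det (ρ g) (A h)).symm
    rw [hA, Matrix.det_mul, h1, map_mul, hres, mul_comm]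
  refine ⟨m, hm, hjump, e, he, ⟨ψ, fun g => ?_⟩, hχ⟩
  have h1 := hψ g
  have h2 : IsLocalRing.residue O (A g).det * IsLocalRing.residue O (Ai g).det = 1 := by
    rw [← map_mul, mul_comm, ← Matrix.det_mul, hAiA, Matrix.det_one, map_one]
  rw [← h1]
  calc IsLocalRing.residue O (e g : O)
      = (IsLocalRing.residue O (A g).det * IsLocalRing.residue O (Ai g).det) ^ r *
          IsLocalRing.residue O (e g : O) := by rw [h2, one_pow, one_mul]
    _ = _ := by rw [mul_pow]; ring

end grp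

end Pool.Agent.H16.COD
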