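import Mathlib

/-!
# Symmetric matrices over factorial domains: the discriminant of the nondegenerate quotient
-/

set_option autoImplicit false
set_option linter.unusedSectionVars false

namespace Pool.Agent.H16.COD

open Matrix

section field

variable {K σ : Type*} [Field K] [Fintype σ] [DecidableEq σ]

/-- A symmetric matrix of rank `r` over a field is `Rᵀ H₀ R` with `H₀` a nonsingular principal
submatrix of size `r`. -/
theorem exists_factor (H : Matrix σ σ K) (hH : Hᵀ = H) (r : ℕ) (hr : H.rank = r) :
    ∃ (J : Fin r → σ) (R : Matrix (Fin r) σ K), H = Rᵀ * H.submatrix J J * R ∧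
      R.submatrix id J = 1 ∧ (H.submatrix J J).det ≠ 0 := by
  have hex : ∃ f : Fin r → σ → K, (∀ i, f i ∈ Set.range H.row) ∧
      Submodule.span K (Set.range f) = Submodule.span K (Set.range H.row) ∧
      LinearIndependent K f := by
    rw [Matrix.rank_eq_finrank_span_row] at hr
    subst hr
    exact Submodule.exists_fun_fin_finrank_span_eq K (Set.range H.row)
  obtain ⟨f, hf1, hf2, hf3⟩ := hex
  choose J hJ using hf1
  have hc : ∀ a : σ, ∃ c : Fin r → K, ∑ i, c i • f i = H.row a := by
    intro a
    have h1 : H.row a ∈ Submodule.span K (Set.range f) := by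
      rw [hf2]; exact Submodule.subset_span ⟨a, rfl⟩
    exact (Submodule.mem_span_range_iff_exists_fun K).mp h1
  choose c hc using hc
  have hli := Fintype.linearIndependent_iff.mp hf3
  have hcJ : ∀ i j, c (J j) i = if i = j then 1 else 0 := by
    intro i j
    have h1 : ∑ i, (c (J j) i - if i = j then 1 else 0) • f i = 0 := by
      simp only [sub_smul, Finset.sum_sub_distrib, hc, hJ, ite_smul, one_smul, zero_smul,
        Finset.sum_ite_eq', Finset.mem_univ, if_true, sub_self]
    exact sub_eq_zero.mp (hli _ h1 i)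
  have hR1 : H = (Matrix.of fun i a => c a i)ᵀ * H.submatrix J id := by
    ext a b
    have h1 := congrFun (hc a) b
    rw [Finset.sum_apply] at h1
    rw [Matrix.mul_apply]
    change H a b = ∑ i, c a i * H (J i) b
    rw [show H a b = H.row a b from rfl, ← h1]
    refine Finset.sum_congr rfl fun i _ => ?_
    rw [Pi.smul_apply, smul_eq_mul, ← hJ i]
    rfl
  have hR2 : H = H.submatrix id J * (Matrix.of fun i a => c a i) := by
    have h1 := congrArg Matrix.transpose hR1
    rw [hH, Matrix.transpose_mul, Matrix.transpose_transpose, Matrix.transpose_submatrix, hH] at h1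
    exact h1
  have hR3 : H.submatrix J id = H.submatrix J J * (Matrix.of fun i a => c a i) := by
    conv_lhs => rw [hR2]
    rfl
  refine ⟨J, Matrix.of fun i a => c a i, ?_, ?_, ?_⟩
  · rw [Matrix.mul_assoc, ← hR3]
    exact hR1
  · ext i j
    rw [Matrix.submatrix_apply, Matrix.of_apply, hcJ, Matrix.one_apply]
    rfl
  · intro h0
    obtain ⟨v, hv, hv0⟩ := Matrix.exists_vecMul_eq_zero_iff.mpr h0
    apply hv
    funext i
    refine hli v ?_ i
    funext b
    rw [Finset.sum_apply, Pi.zero_apply]
    have h1 : v ᵥ* H.submatrix J id = 0 := by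
      rw [hR3, ← Matrix.vecMul_vecMul, hv0, Matrix.zero_vecMul]
    have h2 := congrFun h1 b
    rw [Pi.zero_apply] at h2
    rw [← h2]
    change _ = ∑ i, v i * H (J i) b
    refine Finset.sum_congr rfl fun i _ => ?_
    rw [Pi.smul_apply, smul_eq_mul, ← hJ i]
    rfl

/-- The rank is at least the size of a nonsingular submatrix. -/
theorem le_rank_of_det (H : Matrix σ σ K) {r : ℕ} (J : Fin r → σ)
    (h : (H.submatrix J J).det ≠ 0) : r ≤ H.rank := by
  have h1 : (H.submatrix J J).rank = r := by
    rw [Matrix.rank_of_isUnit _ ((Matrix.isUnit_iff_isUnit_det _).mpr (isUnit_iff_ne_zero.mpr h)),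
      Fintype.card_fin]
  rw [← h1]
  exact Matrix.rank_submatrix_le _ _ _

/-- The rank is invariant under extension of the field. -/
theorem rank_map_field {L : Type*} [Field L] (f : K →+* L) (H : Matrix σ σ K) (hH : Hᵀ = H) :
    (H.map f).rank = H.rank := by
  obtain ⟨J, R, h1, h2, h3⟩ := exists_factor H hH H.rank rfl
  apply le_antisymm
  · have h4 : H.map f = (R.map f)ᵀ * (H.submatrix J J).map f * R.map f := by
      conv_lhs => rw [h1]
      rw [Matrix.map_mul, Matrix.map_mul, Matrix.transpose_map]
    rw [h4]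
    refine (Matrix.rank_mul_le_right _ _).trans ?_
    exact (Matrix.rank_le_card_height (R.map f)).trans (Fintype.card_fin _).le
  · apply le_rank_of_det (H.map f) J
    have h5 : (H.map f).submatrix J J = (H.submatrix J J).map f := rfl
    rw [h5]
    have h6 := RingHom.map_det f (H.submatrix J J)
    change f _ = ((H.submatrix J J).map f).det at h6
    rw [← h6]
    exact (map_ne_zero f).mpr h3

end field

section ufd

variable {O : Type*} [CommRing O] [IsDomain O] [UniqueFactorizationMonoid O]

/-- squarefree part -/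
theorem exists_squarefree_mul_sq (m : O) (hm : m ≠ 0) :
    ∃ a s : O, Squarefree a ∧ s ≠ 0 ∧ m = a * s ^ 2 := by
  induction m using (wellFounded_dvdNotUnit (α := O)).induction with
  | _ m ih =>
    by_cases hsq : Squarefree m
    · exact ⟨m, 1, hsq, one_ne_zero, by ring⟩
    · unfold Squarefree at hsq
      push Not at hsq
      obtain ⟨x, ⟨y, hy⟩, hx⟩ := hsq
      have hy0 : y ≠ 0 := by
        rintro rfl
        exact hm (by rw [hy, mul_zero])
      have hx0 : x ≠ 0 := by
        rintro rfl
        exact hm (by rw [hy]; ring)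
      obtain ⟨a, s, ha, hs, has⟩ := ih y ⟨hy0, x * x, fun h => hx (isUnit_of_mul_isUnit_left h),
        by rw [hy]; ring⟩ hy0
      exact ⟨a, x * s, ha, mul_ne_zero hx0 hs, by rw [hy, has]; ring⟩

/-- a prime factor of the squarefree part has odd multiplicity -/
theorem no_square {m a s p : O} (ha : Squarefree a) (hs : s ≠ 0) (hm : m = a * s ^ 2)
    (hp : Prime p) (hpa : p ∣ a) : ¬ ∃ c b : O, ¬ p ∣ c ∧ c * m = b ^ 2 := by
  rintro ⟨c, b, hc, hcb⟩
  obtain ⟨a', ha'⟩ := hpa
  have ha0 : a ≠ 0 := by
    rintro rfl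
    exact hp.not_isUnit (ha p ⟨0, by ring⟩)
  have hpa' : ¬ p ∣ a' := by
    rintro ⟨x, hx⟩
    exact hp.not_isUnit (ha p ⟨x, by rw [ha', hx]; ring⟩)
  -- descent on `s`
  have key : ∀ n : ℕ, ∀ s b : O, s ≠ 0 → c * (a * s ^ 2) = b ^ 2 → ¬ p ^ n ∣ s → False := by
    intro n
    induction n with
    | zero =>
      intro s b _ _ h
      exact h (by rw [pow_zero]; exact one_dvd s)
    | succ n ih =>
      intro s b hs h hn
      have hpb : p ∣ b := hp.dvd_of_dvd_pow (n := 2) ⟨c * (a' * s ^ 2), by rw [← h, ha']; ring⟩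
      obtain ⟨b', rfl⟩ := hpb
      have h1 : c * (a' * s ^ 2) = p * b' ^ 2 := by
        apply mul_left_cancel₀ hp.ne_zero
        calc p * (c * (a' * s ^ 2)) = c * (p * a' * s ^ 2) := by ring
          _ = (p * b') ^ 2 := by rw [← ha', h]
          _ = p * (p * b' ^ 2) := by ring
      have h2 : p ∣ c * (a' * s ^ 2) := ⟨b' ^ 2, h1⟩
      have h3 : p ∣ s := by
        rcases hp.dvd_or_dvd h2 with h3 | h3
        · exact absurd h3 hc
        · rcases hp.dvd_or_dvd h3 with h4 | h4
          · exact absurd h4 hpa'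
          · exact hp.dvd_of_dvd_pow h4
      obtain ⟨s', rfl⟩ := h3
      have hs' : s' ≠ 0 := by
        rintro rfl
        exact hs (mul_zero p)
      refine ih s' b' hs' ?_ ?_
      · apply mul_left_cancel₀ (pow_ne_zero 2 hp.ne_zero)
        calc p ^ 2 * (c * (a * s' ^ 2)) = c * (a * (p * s') ^ 2) := by ring
          _ = p ^ 2 * b' ^ 2 := by rw [h]; ring
      · rintro ⟨x, hx⟩
        exact hn ⟨x, by rw [hx]; ring⟩
  have hfin := FiniteMultiplicity.of_not_isUnit hp.not_isUnit hs
  obtain ⟨n, hn⟩ := hfin
  exact key (n + 1) s b hs (by rw [← hm]; exact hcb) hn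

end ufd

end Pool.Agent.H16.COD
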