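import Pool.Agent.Results.MP_34e55c_ag.JumpDivisors

/-!
# Ideals preserved by a reversing affine involution are controlled (check of the definitions)
-/

set_option autoImplicit false

open MvPolynomial

namespace Pool.Agent.H16.COD

open Pool.Agent.Results.MP_34e55c_ag.JumpDivisors

universe u

theorem controlled_of_symmetric {K : Type u} [Field K] (h2 : (2 : K) ≠ 0)
    (J : Ideal (MvPolynomial (Fin 3) K)) (hfin : Module.Finite K (MvPolynomial (Fin 3) K ⧸ J))
    (hJ : Pool.Agent.H13.Par.ReversingSymmetric J) : Controlled J := by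
  obtain ⟨g, A, b, hg, hdet, hgg, hgJ⟩ := hJ
  obtain ⟨G, hG⟩ : ∃ G : RingAut (MvPolynomial (Fin 3) K), ∀ p, G p = g p :=
    ⟨{ toFun := g, invFun := g, left_inv := hgg, right_inv := hgg,
       map_mul' := map_mul g, map_add' := map_add g }, fun p => rfl⟩
  have hG2 : G * G = 1 := by
    ext1 p
    change G (G p) = p
    rw [hG, hG, hgg]
  have hCG : ∀ a : K, G (C a) = C a := fun a => by
    rw [hG]
    exact g.commutes a
  have hmem : ∀ γ : Subgroup.zpowers G, (γ : RingAut (MvPolynomial (Fin 3) K)) = 1 ∨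
      (γ : RingAut (MvPolynomial (Fin 3) K)) = G := by
    rintro ⟨γ, hγ⟩
    obtain ⟨n, rfl⟩ := Subgroup.mem_zpowers_iff.mp hγ
    change G ^ n = 1 ∨ G ^ n = G
    rcases Int.even_or_odd' n with ⟨q, hq | hq⟩
    · left
      rw [hq, zpow_mul]
      have : G ^ (2 : ℤ) = 1 := by
        rw [show (2 : ℤ) = ((2 : ℕ) : ℤ) from rfl, zpow_natCast, sq, hG2]
      rw [this, one_zpow]
    · right
      rw [hq, zpow_add, zpow_mul, zpow_one]
      have : G ^ (2 : ℤ) = 1 := by
        rw [show (2 : ℤ) = ((2 : ℕ) : ℤ) from rfl, zpow_natCast, sq, hG2]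
      rw [this, one_zpow, one_mul]
  classical
  have hinj : Function.Injective (IsLocalRing.residue K) := (IsLocalRing.residue K).injective
  have hmid : MvPolynomial.map (RingHom.id K) = RingHom.id (MvPolynomial (Fin 3) K) :=
    RingHom.ext MvPolynomial.map_id
  refine ⟨K, inferInstance, inferInstance, inferInstance, inferInstance, J, Subgroup.zpowers G,
    inferInstance, Subgroup.subtype _,
    fun γ => if (γ : RingAut (MvPolynomial (Fin 3) K)) = 1 then 1 else -1, RingHom.id K,
    Function.injective_id, ?_, inferInstance, hfin, ?_, ?_⟩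
  · unfold fibre
    rw [hmid, Ideal.map_id]
  · intro γ
    change (∀ p ∈ J, (γ : RingAut (MvPolynomial (Fin 3) K)) p ∈ J) ∧
      (∀ a : K, ∃ a' : K, (γ : RingAut (MvPolynomial (Fin 3) K)) (C a) = C a' ∧
        IsLocalRing.residue K a' = IsLocalRing.residue K a) ∧
      ∃ (A : Matrix (Fin 3) (Fin 3) K) (b : Fin 3 → K),
        (∀ i, (γ : RingAut (MvPolynomial (Fin 3) K)) (X i) = ∑ j, C (A i j) * X j + C (b i)) ∧
        (if (γ : RingAut (MvPolynomial (Fin 3) K)) = 1 then 1 else -1) =
          IsLocalRing.residue K A.det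
    by_cases h1 : (γ : RingAut (MvPolynomial (Fin 3) K)) = 1
    · rw [h1]
      refine ⟨fun p hp => hp, fun a => ⟨a, rfl, rfl⟩, 1, 0, fun i => ?_, ?_⟩
      · change X i = _
        rw [Finset.sum_eq_single i]
        · rw [Matrix.one_apply_eq, Pi.zero_apply, map_one, map_zero, one_mul, add_zero]
        · intro j _ hj
          rw [Matrix.one_apply_ne hj.symm, map_zero, zero_mul]
        · intro h; exact absurd (Finset.mem_univ i) h
      · rw [if_pos rfl, Matrix.det_one, map_one]
    · rcases hmem γ with h | h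
      · exact absurd h h1
      · rw [if_neg h1, h]
        refine ⟨fun p hp => by rw [hG]; exact hgJ p hp, fun a => ⟨a, hCG a, rfl⟩, A, b,
          fun i => by rw [hG, hg], ?_⟩
        rw [hdet, map_neg, map_one]
  · rintro ⟨e, ⟨m, hm, hem, _⟩, ψ, hψ⟩
    have hm0 : m ≠ 0 := by
      rintro rfl
      exact not_isUnit_zero (hm 0 ⟨0, by ring⟩)
    obtain ⟨γ, hγ⟩ : ∃ γ : Subgroup.zpowers G, (γ : RingAut (MvPolynomial (Fin 3) K)) = G :=
      ⟨⟨G, Subgroup.mem_zpowers G⟩, rfl⟩
    have he : (e γ : K) = 1 := by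
      have h1 := hem γ
      change (γ : RingAut (MvPolynomial (Fin 3) K)) (C m) = _ at h1
      rw [hγ, hCG] at h1
      have h3 := MvPolynomial.C_injective _ _ h1
      exact (mul_right_cancel₀ hm0 (by rw [one_mul]; exact h3)).symm
    have hγ1 : (γ : RingAut (MvPolynomial (Fin 3) K)) ≠ 1 := by
      intro h1
      rw [hγ] at h1
      have h4 : A = 1 := by
        refine lin_unique (b := b) (b' := 0) fun i => ?_
        rw [← hg, ← hG, h1]
        change X i = _
        rw [Finset.sum_eq_single i]
        · rw [Matrix.one_apply_eq, Pi.zero_apply, map_one, map_zero, one_mul, add_zero]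
        · intro j _ hj
          rw [Matrix.one_apply_ne hj.symm, map_zero, zero_mul]
        · intro h; exact absurd (Finset.mem_univ i) h
      rw [h4, Matrix.det_one] at hdet
      apply h2
      linear_combination hdet
    have hγ2 : γ * γ = 1 := by
      apply Subtype.ext
      change (γ : RingAut (MvPolynomial (Fin 3) K)) * γ = 1
      rw [hγ, hG2]
    have h5 : ψ γ ^ 2 = 1 := by rw [sq, ← map_mul, hγ2, map_one]
    have h6 := hψ γ
    change (if (γ : RingAut (MvPolynomial (Fin 3) K)) = 1 then 1 else -1) *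
      IsLocalRing.residue K (e γ : K) = ψ γ ^ 2 at h6
    rw [if_neg hγ1, he, map_one, mul_one, h5] at h6
    apply h2
    apply hinj
    rw [map_zero, map_ofNat]
    linear_combination -h6

end Pool.Agent.H16.COD
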